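import Pool.Agent.DPS.Stmts

/-! Row KEV of the squad DPS. -/

namespace Pool.Agent.DPS.H88

open Finset Polynomial

theorem alt_choose : ∀ (c a b : ℕ), c ≤ a → a ≤ b →
    ∑ i ∈ Finset.range (c + 1), (-1 : ℝ) ^ i * ((c.choose i : ℝ) * ((b - i).choose (a - i) : ℝ)) =
      ((b - c).choose a : ℝ) := by
  intro c
  induction c with
  | zero =>
    intro a b _ _
    simp
  | succ c ih =>
    intro a b hca hab
    obtain ⟨a', rfl⟩ : ∃ a', a = a' + 1 := ⟨a - 1, by omega⟩
    obtain ⟨b', rfl⟩ : ∃ b', b = b' + 1 := ⟨b - 1, by omega⟩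
    have h1 := ih (a' + 1) (b' + 1) (by omega) hab
    have h2 := ih a' b' (by omega) (by omega)
    have hpas : ((b' + 1 - c).choose (a' + 1) : ℝ) =
        ((b' - c).choose a' : ℝ) + ((b' - c).choose (a' + 1) : ℝ) := by
      have : b' + 1 - c = (b' - c) + 1 := by omega
      rw [this, Nat.choose_succ_succ]
      push_cast
      ring
    have hgoal : b' + 1 - (c + 1) = b' - c := by omega
    rw [hgoal]
    have hsplit : ∑ i ∈ Finset.range (c + 1 + 1), (-1 : ℝ) ^ i *
        (((c + 1).choose i : ℝ) * ((b' + 1 - i).choose (a' + 1 - i) : ℝ)) =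
        (∑ i ∈ Finset.range (c + 1), (-1 : ℝ) ^ i *
          ((c.choose i : ℝ) * ((b' + 1 - i).choose (a' + 1 - i) : ℝ))) -
        ∑ i ∈ Finset.range (c + 1), (-1 : ℝ) ^ i *
          ((c.choose i : ℝ) * ((b' - i).choose (a' - i) : ℝ)) := by
      rw [Finset.sum_range_succ']
      have hfirst : ∑ i ∈ Finset.range (c + 1), (-1 : ℝ) ^ i *
          ((c.choose i : ℝ) * ((b' + 1 - i).choose (a' + 1 - i) : ℝ)) =
          (∑ i ∈ Finset.range (c + 1), (-1 : ℝ) ^ (i + 1) *
          ((c.choose (i + 1) : ℝ) * ((b' - i).choose (a' - i) : ℝ))) +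
            ((b' + 1).choose (a' + 1) : ℝ) := by
        have h3 : ∑ i ∈ Finset.range (c + 2), (-1 : ℝ) ^ i *
          ((c.choose i : ℝ) * ((b' + 1 - i).choose (a' + 1 - i) : ℝ)) =
          ∑ i ∈ Finset.range (c + 1), (-1 : ℝ) ^ i *
          ((c.choose i : ℝ) * ((b' + 1 - i).choose (a' + 1 - i) : ℝ)) := by
          rw [Finset.sum_range_succ, Nat.choose_succ_self]
          simp
        rw [← h3, Finset.sum_range_succ']
        congr 1
        · refine Finset.sum_congr rfl fun i _ => ?_
          rw [Nat.add_sub_add_right, Nat.add_sub_add_right]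
        · simp
      rw [hfirst]
      simp only [pow_zero, Nat.choose_zero_right, Nat.cast_one, one_mul, Nat.sub_zero]
      rw [add_sub_right_comm]
      congr 1
      rw [← Finset.sum_sub_distrib]
      refine Finset.sum_congr rfl fun i _ => ?_
      rw [Nat.add_sub_add_right, Nat.add_sub_add_right, Nat.choose_succ_succ, pow_succ]
      push_cast
      ring
    rw [hsplit, h1, h2, hpas]
    ring

theorem kev (hMEV : MEVStmt) : KEVStmt := by
  intro n k j hn hj
  unfold kp kap
  rw [Polynomial.eval_finset_sum]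
  have h1 : ∀ r ∈ Finset.range (k + 1),
      (Polynomial.C ((-1 : ℝ) ^ r) * mp n k r).eval (y n j) =
      if j ≤ r then (-1 : ℝ) ^ r * (((k - j).choose (k - r) : ℝ) *
        ((n - r - j).choose (k - r) : ℝ)) else 0 := by
    intro r hr
    have hrk : r ≤ k := by
      have := Finset.mem_range.mp hr
      omega
    rw [Polynomial.eval_mul, Polynomial.eval_C, hMEV n k r j hn hrk hj]
    split_ifs <;> ring
  rw [Finset.sum_congr rfl h1]
  obtain ⟨a, rfl⟩ : ∃ a, k = j + a := ⟨k - j, by omega⟩
  have h2 : j + a + 1 = j + (a + 1) := by ring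
  rw [h2, Finset.sum_range_add]
  have h3 : ∑ x ∈ Finset.range j, (if j ≤ x then (-1 : ℝ) ^ x *
      (((j + a - j).choose (j + a - x) : ℝ) * ((n - x - j).choose (j + a - x) : ℝ)) else 0) = 0 := by
    refine Finset.sum_eq_zero fun x hx => ?_
    have := Finset.mem_range.mp hx
    rw [if_neg (by omega)]
  rw [h3, zero_add]
  have h4 := alt_choose a a (n - 2 * j) le_rfl (by omega)
  have h5 : n - (j + a) - j = n - 2 * j - a := by omega
  have h6 : j + a - j = a := by omega
  rw [h5, h6, ← h4, Finset.mul_sum]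
  refine Finset.sum_congr rfl fun i hi => ?_
  have hi' : i ≤ a := by
    have := Finset.mem_range.mp hi
    omega
  rw [if_pos (by omega), pow_add]
  have h7 : j + a - (j + i) = a - i := by omega
  have h8 : n - (j + i) - j = n - 2 * j - i := by omega
  rw [h7, h8, Nat.choose_symm hi']
  ring

end Pool.Agent.DPS.H88
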