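import Pool.Agent.Helper88_DPS.R1v

/-!
Squad DPS, row R1P: the degree power sums (degrees of points), all real exponents at least 2.
-/

namespace Pool.Agent.DPS.H88

open Finset Pool.Agent.DPS

theorem u_bound {t K N : ℝ} (h1 : 1 ≤ t) (hK : t + 1 ≤ K) (hN : 2 * K ≤ N) :
    0 ≤ t + (N - t) * ((K - t) / (N - t)) ^ 2 - K * (K - 1) / (N - 1) ∧
    t + (N - t) * ((K - t) / (N - t)) ^ 2 - K * (K - 1) / (N - 1) ≤
      (t + 1) * (1 - (K - t) / (N - t)) ^ 2 := by
  have a1 : 0 < N - t := by linarith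
  have a2 : 0 < N - K := by linarith
  have a3 : 0 < N - 1 := by linarith
  have a4 : 0 < N := by linarith
  have a5 : 0 < K := by linarith
  have hU : t + (N - t) * ((K - t) / (N - t)) ^ 2 - K * (K - 1) / (N - 1) =
      t * (N - K) ^ 2 / (N * (N - t)) + K * (N - K) / (N * (N - 1)) := by
    field_simp
    ring
  have hr : 1 - (K - t) / (N - t) = (N - K) / (N - t) := by
    field_simp
    ring
  rw [hU, hr]
  refine ⟨by positivity, ?_⟩
  have b1 : t * (N - K) ^ 2 / (N * (N - t)) ≤ t * ((N - K) / (N - t)) ^ 2 := by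
    rw [div_pow, ← mul_div_assoc]
    apply div_le_div_of_nonneg_left (by positivity) (by positivity)
    nlinarith
  have b2 : K * (N - K) / (N * (N - 1)) ≤ ((N - K) / (N - t)) ^ 2 := by
    rw [div_pow, div_le_div_iff₀ (by positivity) (by positivity)]
    have c1 : (N - t) ^ 2 ≤ N * (N - 1) := by nlinarith
    have c2 : K * (N - K) ≤ (N - K) ^ 2 := by nlinarith
    calc K * (N - K) * (N - t) ^ 2 ≤ (N - K) ^ 2 * (N - t) ^ 2 := by
          apply mul_le_mul_of_nonneg_right c2 (by positivity)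
      _ ≤ (N - K) ^ 2 * (N * (N - 1)) := by
          apply mul_le_mul_of_nonneg_left c1 (by positivity)
  linarith

/-- Bernoulli in the form used below. -/
theorem bern {p r : ℝ} (hp : 1 ≤ p) (h0 : 0 < r) (h1 : r ≤ 1) :
    r ^ p * (1 + p * (r⁻¹ - 1)) ≤ 1 := by
  have h2 : 1 ≤ r⁻¹ := (one_le_inv₀ h0).mpr h1
  have h3 : 1 + p * (r⁻¹ - 1) ≤ (1 + (r⁻¹ - 1)) ^ p :=
    one_add_mul_self_le_rpow_one_add (by linarith) hp
  have h4 : 1 + (r⁻¹ - 1) = r⁻¹ := by ring
  rw [h4] at h3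
  have h5 : r ^ p * (r⁻¹) ^ p = 1 := by
    rw [← Real.mul_rpow h0.le (by positivity), mul_inv_cancel₀ h0.ne', Real.one_rpow]
  calc r ^ p * (1 + p * (r⁻¹ - 1)) ≤ r ^ p * (r⁻¹) ^ p :=
        mul_le_mul_of_nonneg_left h3 (Real.rpow_nonneg h0.le _)
    _ = 1 := h5

theorem c_bound {p r : ℝ} (hp : 2 ≤ p) (h0 : 0 < r) (h1 : r < 1) :
    0 ≤ (1 - r ^ p - p * r ^ (p - 1) * (1 - r)) / (1 - r) ^ 2 ∧
    (1 - r ^ p - p * r ^ (p - 1) * (1 - r)) / (1 - r) ^ 2 * (1 - r) ^ 2 ≤ 1 := by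
  have h2 : 0 < 1 - r := by linarith
  have h3 := bern (show (1 : ℝ) ≤ p by linarith) h0 h1.le
  have h4 : r ^ p * (1 + p * (r⁻¹ - 1)) = r ^ p + p * r ^ (p - 1) * (1 - r) := by
    rw [Real.rpow_sub_one h0.ne']
    field_simp
  rw [h4] at h3
  refine ⟨div_nonneg (by linarith) (by positivity), ?_⟩
  rw [div_mul_cancel₀ _ (by positivity)]
  have h5 : 0 ≤ r ^ p := Real.rpow_nonneg h0.le _
  have h6 : 0 ≤ p * r ^ (p - 1) * (1 - r) := by
    have := Real.rpow_nonneg h0.le (p - 1)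
    positivity
  linarith

theorem dg_nonneg {n k : ℕ} (A : Finset (KS n k)) (x : Fin n) : 0 ≤ dg (ind A) {x} := by
  unfold dg ind
  refine Finset.sum_nonneg fun F _ => ?_
  split_ifs <;> norm_num

theorem dg_le {n k : ℕ} (A : Finset (KS n k)) (x : Fin n) : dg (ind A) {x} ≤ (A.card : ℝ) := by
  rw [← sum_ind]
  unfold dg ind
  refine Finset.sum_le_sum fun F _ => ?_
  split_ifs <;> norm_num

theorem sum_dg {n k : ℕ} (f : KS n k → ℝ) :
    ∑ x : Fin n, dg f {x} = (k : ℝ) * ∑ F, f F := by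
  unfold dg
  rw [Finset.sum_comm, Finset.mul_sum]
  refine Finset.sum_congr rfl fun F _ => ?_
  simp only [Finset.singleton_subset_iff]
  rw [Finset.sum_ite_mem, Finset.univ_inter, Finset.sum_const, nsmul_eq_mul, F.2]

theorem sum_split {n : ℕ} (T : Finset (Fin n)) (a b : ℝ) :
    ∑ x : Fin n, (if x ∈ T then a else b) = (T.card : ℝ) * a + ((n : ℝ) - T.card) * b := by
  have h : ∀ x : Fin n, (if x ∈ T then a else b) = b + if x ∈ T then a - b else 0 := by
    intro x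
    split_ifs <;> ring
  rw [Finset.sum_congr rfl fun x _ => h x, Finset.sum_add_distrib, Finset.sum_ite_mem,
    Finset.univ_inter]
  simp only [Finset.sum_const, nsmul_eq_mul, Finset.card_univ, Fintype.card_fin]
  ring

theorem r1p (hR1V : R1VStmt) (hR1S : R1SStmt) (hQMJ : QMJStmt) (hP2A : P2AStmt) : R1PStmt := by
  intro n k t h1 htk hn p hp A hA T hT
  have h2k : 2 * k ≤ n := two_k_le h1 htk hn
  have hkn : k ≤ n := by omega
  obtain ⟨hS, hdeg⟩ := hR1S n k t htk hkn T hT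
  set D : ℝ := ((n - t).choose (k - t) : ℝ) with hD
  have hDpos : 0 < D := by
    rw [hD]
    exact_mod_cast Nat.choose_pos (by omega)
  have t1 : (1 : ℝ) ≤ t := by exact_mod_cast h1
  have tk : (t : ℝ) + 1 ≤ k := by exact_mod_cast htk
  have kn : 2 * (k : ℝ) ≤ n := by exact_mod_cast h2k
  set ρ : ℝ := ((k : ℝ) - t) / (n - t) with hρ
  have nt : (0 : ℝ) < n - t := by linarith
  have hρ0 : 0 < ρ := by rw [hρ]; apply div_pos <;> linarith
  have hρ1 : ρ < 1 := by rw [hρ, div_lt_one nt]; linarith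
  have hkρ : (k : ℝ) = t + (n - t) * ρ := by rw [hρ]; field_simp; ring
  have hp0 : p ≠ 0 := by linarith
  -- the right side
  have hRp : ∑ x : Fin n, dg (star k T) {x} ^ p = D ^ p * (t + (n - t) * ρ ^ p) := by
    have h : ∀ x : Fin n, dg (star k T) {x} ^ p = if x ∈ T then D ^ p else ρ ^ p * D ^ p := by
      intro x
      rw [hdeg x]
      split_ifs
      · rfl
      · rw [Real.mul_rpow hρ0.le hDpos.le]
    rw [Finset.sum_congr rfl fun x _ => h x, sum_split, hT]
    ring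
  have hR2 : ∑ x : Fin n, dg (star k T) {x} ^ 2 = D ^ 2 * (t + (n - t) * ρ ^ 2) := by
    have h : ∀ x : Fin n, dg (star k T) {x} ^ 2 = if x ∈ T then D ^ 2 else ρ ^ 2 * D ^ 2 := by
      intro x
      rw [hdeg x]
      split_ifs
      · rfl
      · ring
    rw [Finset.sum_congr rfl fun x _ => h x, sum_split, hT]
    ring
  set l : ℝ := t + (n - t) * ρ ^ p with hl
  have hlt : (t : ℝ) ≤ l := by
    have := Real.rpow_nonneg hρ0.le p
    rw [hl]
    have : 0 ≤ ((n : ℝ) - t) * ρ ^ p := by positivity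
    linarith
  rw [hRp]
  rcases Nat.eq_zero_or_pos A.card with hA0 | hApos
  · have hz : ∀ x : Fin n, dg (ind A) {x} ^ p = 0 := by
      intro x
      have h3 := dg_nonneg A x
      have h4 := dg_le A x
      rw [hA0] at h4
      push_cast at h4
      rw [le_antisymm h4 h3, Real.zero_rpow hp0]
    rw [Finset.sum_congr rfl fun x _ => hz x, Finset.sum_const_zero]
    have := Real.rpow_nonneg hDpos.le p
    have hl0 : 0 ≤ l := by linarith
    positivity
  · set f : ℝ := (A.card : ℝ) with hf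
    have hfpos : 0 < f := by rw [hf]; exact_mod_cast hApos
    have hfD : f ≤ D := by
      rw [← hS]
      exact (hP2A n k t 0 h1 htk (Nat.zero_le _) hn A hA T hT).1
    set W : ℝ := t + (n - t) * ρ ^ 2 with hW
    set c : ℝ := (k : ℝ) * (k - 1) / (n - 1) with hc
    have hV := hR1V n k t h1 htk hn A hA T hT
    rw [hR2, hS, ← hf, ← hc] at hV
    obtain ⟨hU0, hU1⟩ := u_bound t1 tk kn
    rw [← hρ, ← hW, ← hc] at hU0 hU1
    set Cc : ℝ := (1 - ρ ^ p - p * ρ ^ (p - 1) * (1 - ρ)) / (1 - ρ) ^ 2 with hCc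
    obtain ⟨hC0, hC1⟩ := c_bound hp hρ0 hρ1
    rw [← hCc] at hC0 hC1
    set δ : Fin n → ℝ := fun x => dg (ind A) {x} / f with hδ
    have hgδ : ∀ x, dg (ind A) {x} = f * δ x := by
      intro x
      rw [hδ]
      field_simp
    have hδ0 : ∀ x, 0 ≤ δ x := fun x => div_nonneg (dg_nonneg A x) hfpos.le
    have hδ1 : ∀ x, δ x ≤ 1 := fun x => (div_le_one hfpos).mpr (dg_le A x)
    have hsum : ∑ x, δ x = k := by
      have h := sum_dg (ind A)
      rw [sum_ind, ← hf] at h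
      have h' : ∑ x : Fin n, dg (ind A) {x} = f * ∑ x, δ x := by
        rw [Finset.mul_sum]
        exact Finset.sum_congr rfl fun x _ => hgδ x
      rw [h', mul_comm] at h
      exact mul_right_cancel₀ hfpos.ne' h
    -- the second moment
    have hg2 : ∑ x : Fin n, dg (ind A) {x} ^ 2 = f ^ 2 * ∑ x, δ x ^ 2 := by
      rw [Finset.mul_sum]
      refine Finset.sum_congr rfl fun x _ => ?_
      rw [hgδ x, mul_pow]
    rw [hg2] at hV
    have hV2 : f * (∑ x, δ x ^ 2 - c) ≤ D * (W - c) := by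
      have e1 : D * (f ^ 2 * ∑ x, δ x ^ 2 - c * f ^ 2) = (D * f) * (f * (∑ x, δ x ^ 2 - c)) := by
        ring
      have e2 : f * (D ^ 2 * W - c * D ^ 2) = (D * f) * (D * (W - c)) := by ring
      rw [e1, e2] at hV
      exact le_of_mul_le_mul_left hV (mul_pos hDpos hfpos)
    have hV3 : ∑ x, δ x ^ 2 - W ≤ (W - c) * (D / f - 1) := by
      have e : (W - c) * (D / f - 1) = D * (W - c) / f - (W - c) := by
        field_simp
      rw [e]
      have e2 : ∑ x, δ x ^ 2 - c ≤ D * (W - c) / f := by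
        rw [le_div_iff₀ hfpos]
        linarith
      linarith
    -- the sum of the majorants
    have hmaj : ∑ x, δ x ^ p ≤ l + Cc * (∑ x, δ x ^ 2 - W) := by
      have e1 : ∑ x, δ x ^ p ≤ ∑ x, (ρ ^ p + p * ρ ^ (p - 1) * (δ x - ρ) + Cc * (δ x - ρ) ^ 2) :=
        Finset.sum_le_sum fun x _ => hQMJ p ρ (δ x) hp hρ0 hρ1 (hδ0 x) (hδ1 x)
      have e2 : ∑ x, (ρ ^ p + p * ρ ^ (p - 1) * (δ x - ρ) + Cc * (δ x - ρ) ^ 2) =
          (n : ℝ) * ρ ^ p + p * ρ ^ (p - 1) * (k - n * ρ) +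
            Cc * (∑ x, δ x ^ 2 - 2 * ρ * k + n * ρ ^ 2) := by
        have e3 : ∀ x, ρ ^ p + p * ρ ^ (p - 1) * (δ x - ρ) + Cc * (δ x - ρ) ^ 2 =
            (ρ ^ p - p * ρ ^ (p - 1) * ρ + Cc * ρ ^ 2) +
              (p * ρ ^ (p - 1) - 2 * ρ * Cc) * δ x + Cc * δ x ^ 2 := by
          intro x; ring
        rw [Finset.sum_congr rfl fun x _ => e3 x, Finset.sum_add_distrib, Finset.sum_add_distrib,
          ← Finset.mul_sum, ← Finset.mul_sum, hsum]
        simp only [Finset.sum_const, nsmul_eq_mul, Finset.card_univ, Fintype.card_fin]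
        ring
      have e4 : ρ ^ p + p * ρ ^ (p - 1) * (1 - ρ) + Cc * (1 - ρ) ^ 2 = 1 := by
        rw [hCc, div_mul_cancel₀]
        · ring
        · have : 0 < 1 - ρ := by linarith
          positivity
      have e5 : (n : ℝ) * ρ ^ p + p * ρ ^ (p - 1) * (k - n * ρ) +
            Cc * (∑ x, δ x ^ 2 - 2 * ρ * k + n * ρ ^ 2) =
          l + Cc * (∑ x, δ x ^ 2 - W) + t * (ρ ^ p + p * ρ ^ (p - 1) * (1 - ρ) +
            Cc * (1 - ρ) ^ 2 - 1) := by
        rw [hkρ, hl, hW]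
        ring
      rw [e2, e5, e4] at e1
      linarith
    -- the product bound
    have hCU : Cc * (W - c) ≤ p * l := by
      have g1 : Cc * (W - c) ≤ Cc * ((t + 1) * (1 - ρ) ^ 2) := mul_le_mul_of_nonneg_left hU1 hC0
      have g2 : Cc * ((t + 1) * (1 - ρ) ^ 2) = (t + 1) * (Cc * (1 - ρ) ^ 2) := by ring
      have g3 : ((t : ℝ) + 1) * (Cc * (1 - ρ) ^ 2) ≤ (t + 1) * 1 :=
        mul_le_mul_of_nonneg_left hC1 (by linarith)
      have g4 : 2 * l ≤ p * l := mul_le_mul_of_nonneg_right hp (by linarith)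
      linarith
    have hz : 0 ≤ D / f - 1 := by
      have : 1 ≤ D / f := (one_le_div hfpos).mpr hfD
      linarith
    have hmaj2 : ∑ x, δ x ^ p ≤ l * (1 + p * (D / f - 1)) := by
      have g1 : Cc * (∑ x, δ x ^ 2 - W) ≤ Cc * ((W - c) * (D / f - 1)) :=
        mul_le_mul_of_nonneg_left hV3 hC0
      have g2 : Cc * ((W - c) * (D / f - 1)) = (Cc * (W - c)) * (D / f - 1) := by ring
      have g3 : (Cc * (W - c)) * (D / f - 1) ≤ (p * l) * (D / f - 1) :=
        mul_le_mul_of_nonneg_right hCU hz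
      calc ∑ x, δ x ^ p ≤ l + Cc * (∑ x, δ x ^ 2 - W) := hmaj
        _ ≤ l + (p * l) * (D / f - 1) := by linarith
        _ = l * (1 + p * (D / f - 1)) := by ring
    have hB : 1 + p * (D / f - 1) ≤ (D / f) ^ p := by
      have h := one_add_mul_self_le_rpow_one_add (show (-1 : ℝ) ≤ D / f - 1 by linarith)
        (show (1 : ℝ) ≤ p by linarith)
      have e : 1 + (D / f - 1) = D / f := by ring
      rw [e] at h
      exact h
    have hgp : ∑ x : Fin n, dg (ind A) {x} ^ p = f ^ p * ∑ x, δ x ^ p := by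
      rw [Finset.mul_sum]
      refine Finset.sum_congr rfl fun x _ => ?_
      rw [hgδ x, Real.mul_rpow hfpos.le (hδ0 x)]
    have hfp : 0 ≤ f ^ p := Real.rpow_nonneg hfpos.le _
    have hl0 : 0 ≤ l := by linarith
    have hfin : f ^ p * (D / f) ^ p = D ^ p := by
      rw [← Real.mul_rpow hfpos.le (div_nonneg hDpos.le hfpos.le), mul_div_cancel₀ _ hfpos.ne']
    calc ∑ x : Fin n, dg (ind A) {x} ^ p = f ^ p * ∑ x, δ x ^ p := hgp
      _ ≤ f ^ p * (l * (1 + p * (D / f - 1))) := mul_le_mul_of_nonneg_left hmaj2 hfp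
      _ ≤ f ^ p * (l * (D / f) ^ p) :=
          mul_le_mul_of_nonneg_left (mul_le_mul_of_nonneg_left hB hl0) hfp
      _ = (f ^ p * (D / f) ^ p) * l := by ring
      _ = D ^ p * l := by rw [hfin]

end Pool.Agent.DPS.H88
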