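import Pool.Agent.DPS.Stmts

/-!
Squad DPS, row R1V: the variance bound.
-/

namespace Pool.Agent.DPS.H88

open Finset Polynomial Pool.Agent.DPS

theorem two_k_le {n k t : ℕ} (h1 : 1 ≤ t) (h2 : t < k) (h : (t + 1) * (k - t + 1) ≤ n) :
    2 * k ≤ n := by
  obtain ⟨d, rfl⟩ : ∃ d, k = t + 1 + d := ⟨k - t - 1, by omega⟩
  obtain ⟨s, rfl⟩ : ∃ s, t = s + 1 := ⟨t - 1, by omega⟩
  have h3 : s + 1 + 1 + d - (s + 1) + 1 = d + 2 := by omega
  rw [h3] at h
  have h4 : (s + 1 + 1) * (d + 2) = 2 * (s + 1 + 1 + d) + s * d := by ring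
  have h5 : 0 ≤ s * d := Nat.zero_le _
  omega

theorem choose_id {n k : ℕ} (hk : 1 ≤ k) (hn : 2 * k ≤ n) :
    (k : ℝ) * ((n - 1).choose (k - 1) : ℝ) - (k : ℝ) * (k - 1) / (n - 1) * (n.choose k : ℝ) =
      ((n - 2).choose (k - 1) : ℝ) := by
  obtain ⟨N, rfl⟩ : ∃ N, n = N + 2 := ⟨n - 2, by omega⟩
  obtain ⟨κ, rfl⟩ : ∃ κ, k = κ + 1 := ⟨k - 1, by omega⟩
  have e1 : N + 2 - 1 = N + 1 := by omega
  have e2 : κ + 1 - 1 = κ := by omega
  have e3 : N + 2 - 2 = N := by omega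
  rw [e1, e2, e3]
  have h1 : ((N : ℝ) + 2) * ((N + 1).choose κ : ℝ) = ((N + 2).choose (κ + 1) : ℝ) * (κ + 1) := by
    have h := Nat.add_one_mul_choose_eq (N + 1) κ
    have h' : ((N + 2 : ℕ) : ℝ) * ((N + 1).choose κ : ℝ) =
        ((N + 2).choose (κ + 1) : ℝ) * ((κ + 1 : ℕ) : ℝ) := by exact_mod_cast h
    push_cast at h'
    linarith
  have h2 : (N.choose κ : ℝ) * (N + 1) = ((N + 1).choose κ : ℝ) * (N + 1 - κ) := by
    have h := Nat.choose_mul_succ_eq N κ
    have h' : (N.choose κ : ℝ) * ((N + 1 : ℕ) : ℝ) =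
        ((N + 1).choose κ : ℝ) * ((N + 1 - κ : ℕ) : ℝ) := by exact_mod_cast h
    rw [Nat.cast_sub (by omega)] at h'
    push_cast at h'
    linarith
  have hN : (0 : ℝ) < (N : ℝ) + 1 := by positivity
  have e4 : (((N + 2 : ℕ) : ℝ) - 1) = (N : ℝ) + 1 := by push_cast; ring
  rw [e4]
  push_cast
  have h3 : ((κ : ℝ) + 1) * ((κ : ℝ) + 1 - 1) / ((N : ℝ) + 1) * ((N + 2).choose (κ + 1) : ℝ) =
      (κ : ℝ) / ((N : ℝ) + 1) * (((N + 2).choose (κ + 1) : ℝ) * (κ + 1)) := by ring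
  rw [h3, ← h1]
  have h4 : (N.choose κ : ℝ) = ((N + 1).choose κ : ℝ) * (N + 1 - κ) / (N + 1) := by
    rw [← h2]; field_simp
  rw [h4]
  field_simp
  ring

theorem sum_pc_one {n k : ℕ} (f : KS n k → ℝ) :
    ∑ R ∈ Finset.powersetCard 1 (Finset.univ : Finset (Fin n)), dg f R ^ 2 =
      ∑ x : Fin n, dg f {x} ^ 2 := by
  rw [Finset.powersetCard_one, Finset.sum_map]
  rfl

theorem sum_pc_zero {n k : ℕ} (f : KS n k → ℝ) :
    ∑ R ∈ Finset.powersetCard 0 (Finset.univ : Finset (Fin n)), dg f R ^ 2 =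
      (∑ F, f F) ^ 2 := by
  rw [Finset.powersetCard_zero, Finset.sum_singleton]
  simp [dg]

theorem sum_ind {n k : ℕ} (A : Finset (KS n k)) : ∑ F, ind A F = (A.card : ℝ) := by
  unfold ind
  rw [Finset.sum_ite_mem]
  simp

theorem sum_star {n k : ℕ} (T : Finset (Fin n)) :
    ∑ F, star k T F = ip (star k T) (star k T) := by
  unfold ip star
  refine Finset.sum_congr rfl fun F _ => ?_
  split_ifs <;> simp

theorem ip_m {n k : ℕ} (hMPO : MPOStmt) (hQUA : QUAStmt) (hk : 1 ≤ k) (c : ℝ) (f : KS n k → ℝ) :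
    ip f (aeval (Y n k) (mp n k 1 - C c * mp n k 0) f) =
      ∑ x : Fin n, dg f {x} ^ 2 - c * (∑ F, f F) ^ 2 := by
  have h1 : aeval (Y n k) (mp n k 1 - C c * mp n k 0) = M n k 1 - c • M n k 0 := by
    rw [map_sub, ← Polynomial.smul_eq_C_mul, map_smul, hMPO n k 1 hk, hMPO n k 0 (Nat.zero_le _)]
  rw [h1]
  have h2 : ip f ((M n k 1 - c • M n k 0) f) = ip f (M n k 1 f) - c * ip f (M n k 0 f) := by
    unfold ip
    rw [Finset.mul_sum, ← Finset.sum_sub_distrib]
    refine Finset.sum_congr rfl fun F _ => ?_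
    simp only [LinearMap.sub_apply, LinearMap.smul_apply, Pi.sub_apply, Pi.smul_apply, smul_eq_mul]
    ring
  rw [h2, hQUA, hQUA, sum_pc_one, sum_pc_zero]

theorem r1v (hGEN : GENStmt) (hMPO : MPOStmt) (hMEV : MEVStmt) (hQUA : QUAStmt) : R1VStmt := by
  intro n k t h1 htk hn A hA T hT
  have h2k : 2 * k ≤ n := two_k_le h1 htk hn
  have hk : 1 ≤ k := by omega
  set c : ℝ := (k : ℝ) * (k - 1) / (n - 1) with hc
  have hval : ∀ j, j ≤ k → (mp n k 1 - C c * mp n k 0).eval (y n j) =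
      if j ≤ 1 then ((n - 2).choose (k - 1) : ℝ) else 0 := by
    intro j hj
    rw [eval_sub, eval_mul, eval_C, hMEV n k 1 j h2k hk hj, hMEV n k 0 j h2k (Nat.zero_le _) hj]
    rcases Nat.lt_or_ge 1 j with hj1 | hj1
    · rw [if_neg (by omega), if_neg (by omega), if_neg (by omega)]; ring
    · interval_cases j
      · rw [if_pos (by omega), if_pos (by omega), if_pos (by omega)]
        simp only [Nat.sub_zero]
        rw [Nat.choose_self]
        have e : k.choose (k - 1) = k := by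
          rw [Nat.choose_symm hk, Nat.choose_one_right]
        rw [e, ← choose_id hk h2k, hc]
        push_cast
        ring
      · rw [if_pos (by omega), if_neg (by omega), if_pos (by omega)]
        rw [Nat.choose_self]
        have e : n - 1 - 1 = n - 2 := by omega
        rw [e]
        push_cast
        ring
  have hanti : ∀ i j, i ≤ j → j ≤ k →
      (mp n k 1 - C c * mp n k 0).eval (y n j) ≤ (mp n k 1 - C c * mp n k 0).eval (y n i) := by
    intro i j hij hj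
    rw [hval j hj, hval i (le_trans hij hj)]
    have h0 : (0 : ℝ) ≤ ((n - 2).choose (k - 1) : ℝ) := Nat.cast_nonneg _
    split_ifs with ha hb
    · exact le_refl _
    · omega
    · exact h0
    · exact le_refl _
  have h := hGEN n k t h1 htk hn (mp n k 1 - C c * mp n k 0) hanti A hA T hT
  rw [ip_m hMPO hQUA hk, ip_m hMPO hQUA hk, sum_ind, sum_star] at h
  exact h

end Pool.Agent.DPS.H88
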