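import Pool.Agent.DPS.Stmts

/-! Rows QUA, DDI, SUI of the squad DPS. -/

namespace Pool.Agent.DPS.H88

open Finset Polynomial

theorem qua : QUAStmt := by
  intro n k r f
  unfold ip M
  simp only [LinearMap.coe_mk, AddHom.coe_mk, Finset.mul_sum]
  rw [Finset.sum_comm]
  refine Finset.sum_congr rfl fun R _ => ?_
  have h : dg f R ^ 2 = (∑ F : KS n k, if R ⊆ F.1 then f F else 0) * dg f R := by
    rw [sq]; rfl
  rw [h, Finset.sum_mul]
  refine Finset.sum_congr rfl fun F _ => ?_
  split_ifs <;> ring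

theorem ddi : DDIStmt := by
  intro v s f j hj hv
  have hne : ∀ i ∈ s, v j - v i ≠ 0 := by
    intro i hi h
    have hji : j = i := hv (by simp) (by simp [hi]) (sub_eq_zero.mp h)
    exact hj (hji ▸ hi)
  have hP : (∏ m ∈ s, (v j - v m)) ≠ 0 := Finset.prod_ne_zero_iff.mpr hne
  unfold dd
  rw [Finset.sum_insert hj, Finset.erase_insert hj, mul_add, mul_div_cancel₀ _ hP, sub_eq_add_neg,
    add_right_inj, ← Finset.sum_neg_distrib, Finset.mul_sum]
  refine Finset.sum_congr rfl fun i hi => ?_
  have hij : i ≠ j := fun h => hj (h ▸ hi)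
  have he : (insert j s).erase i = insert j (s.erase i) :=
    Finset.erase_insert_of_ne (fun h => hij h.symm)
  have hj' : j ∉ s.erase i := fun h => hj (Finset.mem_of_mem_erase h)
  rw [he, Finset.prod_insert hj', ← Finset.mul_prod_erase s _ hi, Finset.prod_div_distrib]
  have h1 : v j - v i ≠ 0 := hne i hi
  have h2 : v i - v j ≠ 0 := by
    intro h; apply h1; linarith
  have h3 : (∏ m ∈ s.erase i, (v i - v m)) ≠ 0 := by
    refine Finset.prod_ne_zero_iff.mpr fun m hm h => ?_
    have hmi := (Finset.mem_erase.mp hm).1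
    have hms := (Finset.mem_erase.mp hm).2
    exact hmi (hv (by simp [hms]) (by simp [hi]) (sub_eq_zero.mp h).symm)
  field_simp
  ring

theorem sui (hSUP : SUPStmt) : SUIStmt := by
  intro n k t Q A hQ hA
  have hind : ind A = ∑ G ∈ A, ind ({G} : Finset (KS n k)) := by
    funext F
    rw [Finset.sum_apply]
    unfold ind
    simp only [Finset.mem_singleton]
    rw [Finset.sum_ite_eq]
  have hlin : aeval (Y n k) Q (K n k (ind A)) =
      ∑ G ∈ A, aeval (Y n k) Q (K n k (ind ({G} : Finset (KS n k)))) := by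
    conv_lhs => rw [hind]
    rw [map_sum, map_sum]
  unfold ip
  refine Finset.sum_eq_zero fun F _ => ?_
  by_cases hF : F ∈ A
  · rw [hlin, Finset.sum_apply, Finset.sum_eq_zero, mul_zero]
    intro G hG
    exact hSUP n k t Q F G hQ (hA F hF G hG)
  · unfold ind
    rw [if_neg hF, zero_mul]

end Pool.Agent.DPS.H88
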